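import Pool.Agent.Y940.RS.Thm
import Pool.Agent.Y940.CT.Forms

/-!
# MP_12a1af_nt: random sets whose membership events are only boundedly independent

A random set `A = rset E ω = {n | ω ∈ E n}` of natural numbers is given by events `E n`; it is
`k`-wise independent (`KW μ E k`) if `P(n ∈ A for all n ∈ U) = ∏_{n ∈ U} P(n ∈ A)` for all sets `U`
of at most `k` numbers. `rep A s` is the number of ordered pairs of elements of `A` with sum `s`.

1. Let `A` be `4 K`-wise independent, `P(n ∈ A) → 0` (arbitrarily slowly), and let the mean number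
   of elements up to `N` be at least `c √N` for infinitely many `N`. Then almost surely
   `rep A s ≥ 2 K` for infinitely many `s`.
2. The same if the mean number of elements up to `N` is at least `N ^ (1/2 - ε)` for infinitely many
   `N`, for every `ε > 0`, and `P(n ∈ A) ≤ n ^ (-η)` for all large `n`, for some `η > 0`.
3. General form: the same if for every `ε > 0` there are infinitely many `N` and `1 ≤ G ≤ N ^ ε` such
   that the mean number of elements up to `N` is at least `√N / G` and `P(n ∈ A) ≤ ε / G` for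
   `N ^ (1/4) ≤ n ≤ N`.
4. If the conditions of 1, 2 or 3 hold and `A` is `k`-wise independent for every `k`, then almost
   surely `rep A` is unbounded.
5. Without any condition on mean values: let `A` be `4 K`-wise independent and `P(n ∈ A) → 0`. Then,
   almost surely, if `A` satisfies the hypothesis of one of the two questions (`A` is an asymptotic
   basis of order 2, or `a_n ≤ C n²` for some `C` and all `n ≥ 1`), then `rep A s ≥ 2 K` for
   infinitely many `s`.
-/

set_option autoImplicit false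

namespace Pool.Agent.Results.MP_12a1af_nt.BoundedIndependence

open Filter Finset MeasureTheory ProbabilityTheory Pool.Agent.Y940.RS
open Pool.Agent.Y940.CT (count seg count_eq q2_thick basis_thick)

universe u

/-- keep only the numbers `n ≥ m` -/
def tail {Ω : Type u} (E : ℕ → Set Ω) (m : ℕ) : ℕ → Set Ω := fun n => if n < m then ∅ else E n

theorem tail_KW {Ω : Type u} [MeasurableSpace Ω] {μ : Measure Ω} [IsProbabilityMeasure μ]
    {E : ℕ → Set Ω} {k : ℕ} (h : KW μ E k) (m : ℕ) : KW μ (tail E m) k := by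
  classical
  refine ⟨fun n => ?_, fun U hU => ?_⟩
  · unfold tail
    split_ifs
    · exact MeasurableSet.empty
    · exact h.1 n
  · by_cases hall : ∀ n ∈ U, ¬ n < m
    · have h1 : ⋂ n ∈ U, tail E m n = ⋂ n ∈ U, E n := by
        refine Set.iInter₂_congr fun n hn => ?_
        unfold tail
        rw [if_neg (hall n hn)]
      rw [h1, h.2 U hU]
      refine prod_congr rfl fun n hn => ?_
      unfold tail
      rw [if_neg (hall n hn)]
    · push Not at hall
      obtain ⟨n, hn, hn2⟩ := hall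
      have h2 : tail E m n = ∅ := by
        unfold tail
        rw [if_pos hn2]
      rw [prod_eq_zero hn (by rw [h2]; simp)]
      have h3 : ⋂ n ∈ U, tail E m n = ∅ := by
        rw [Set.eq_empty_iff_forall_notMem]
        intro ω hω
        rw [Set.mem_iInter₂] at hω
        have := hω n hn
        rw [h2] at this
        exact this
      rw [h3]
      simp

theorem tail_real {Ω : Type u} [MeasurableSpace Ω] {μ : Measure Ω} {E : ℕ → Set Ω} (m n : ℕ) :
    μ.real (tail E m n) = if n < m then 0 else μ.real (E n) := by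
  unfold tail
  split_ifs
  · simp
  · rfl

theorem tail_rich {Ω : Type u} [MeasurableSpace Ω] {μ : Measure Ω} [IsProbabilityMeasure μ]
    {E : ℕ → Set Ω} (h : Rich fun n => μ.real (E n)) (m : ℕ) :
    Rich fun n => μ.real (tail E m n) := by
  intro ε hε
  set ε₁ : ℝ := min (ε / 2) (1 / 8) with hε₁
  have h0 : 0 < ε₁ := by positivity
  have h1 : ε₁ ≤ ε / 2 := min_le_left _ _
  have h2 : ε₁ ≤ 1 / 8 := min_le_right _ _
  have hl1 : Tendsto (fun N : ℕ => (N : ℝ) ^ (ε / 2)) atTop atTop :=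
    (tendsto_rpow_atTop (by positivity)).comp tendsto_natCast_atTop_atTop
  have hl2 : Tendsto (fun N : ℕ => (N : ℝ) ^ (3 / 8 : ℝ)) atTop atTop :=
    (tendsto_rpow_atTop (by positivity)).comp tendsto_natCast_atTop_atTop
  refine ((h ε₁ h0).and_eventually ((hl1.eventually_ge_atTop 2).and
    ((hl2.eventually_ge_atTop (2 * m)).and (eventually_ge_atTop 1)))).mono ?_
  rintro N ⟨⟨G, hG1, hG2, hG3, hG4⟩, hN1, hN2, hN3⟩
  have hN3' : (1 : ℝ) ≤ N := by exact_mod_cast hN3
  have hNpos : (0 : ℝ) < N := by linarith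
  have hGpos : 0 < G := by linarith
  refine ⟨2 * G, by linarith, ?_, ?_, ?_⟩
  · have h3 : G ≤ (N : ℝ) ^ (ε / 2) :=
      hG2.trans (Real.rpow_le_rpow_of_exponent_le hN3' h1)
    have h4 : (N : ℝ) ^ ε = (N : ℝ) ^ (ε / 2) * (N : ℝ) ^ (ε / 2) := by
      rw [← Real.rpow_add hNpos]
      congr 1
      ring
    rw [h4]
    exact mul_le_mul hN1 h3 hGpos.le (by linarith)
  · have h5 : ∑ n ∈ Icc 1 N, μ.real (E n) ≤ ∑ n ∈ Icc 1 N, μ.real (tail E m n) + m := by
      have h6 : ∑ n ∈ Icc 1 N, μ.real (E n) ≤ ∑ n ∈ Icc 1 N, μ.real (tail E m n) +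
          (((Icc 1 N).filter fun n => n < m).card : ℝ) := by
        rw [card_filter]
        push_cast
        rw [← sum_add_distrib]
        refine sum_le_sum fun n _ => ?_
        rw [tail_real]
        by_cases hn : n < m
        · rw [if_pos hn, if_pos hn]
          have : μ.real (E n) ≤ 1 := measureReal_le_one
          linarith
        · rw [if_neg hn, if_neg hn]
          linarith
      have h7 : ((Icc 1 N).filter fun n => n < m).card ≤ m := by
        refine (card_le_card (t := range m) ?_).trans (by simp)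
        intro n hn
        rw [mem_filter] at hn
        exact mem_range.2 hn.2
      have h8 : (((Icc 1 N).filter fun n => n < m).card : ℝ) ≤ m := by exact_mod_cast h7
      linarith
    have h9 : (m : ℝ) ≤ Real.sqrt N / (2 * G) := by
      have h10 : G ≤ (N : ℝ) ^ (1 / 8 : ℝ) :=
        hG2.trans (Real.rpow_le_rpow_of_exponent_le hN3' h2)
      have h11 : Real.sqrt N = (N : ℝ) ^ (3 / 8 : ℝ) * (N : ℝ) ^ (1 / 8 : ℝ) := by
        rw [← Real.rpow_add hNpos, Real.sqrt_eq_rpow]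
        congr 1
        norm_num
      rw [le_div_iff₀ (by positivity), h11]
      have h12 : (0 : ℝ) ≤ m := Nat.cast_nonneg m
      have h13 : (0 : ℝ) ≤ (N : ℝ) ^ (3 / 8 : ℝ) := by positivity
      calc (m : ℝ) * (2 * G) = (2 * m) * G := by ring
        _ ≤ (N : ℝ) ^ (3 / 8 : ℝ) * (N : ℝ) ^ (1 / 8 : ℝ) := mul_le_mul hN2 h10 hGpos.le h13
    have h14 : Real.sqrt N / G = Real.sqrt N / (2 * G) + Real.sqrt N / (2 * G) := by
      field_simp
      ring
    show Real.sqrt N / (2 * G) ≤ ∑ n ∈ Icc 1 N, μ.real (tail E m n)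
    have h15 : Real.sqrt N / G ≤ ∑ n ∈ Icc 1 N, μ.real (E n) := hG3
    linarith
  · intro n hn1 hn2
    show μ.real (tail E m n) ≤ ε / (2 * G)
    have h16 : μ.real (E n) ≤ ε₁ / G := hG4 n hn1 hn2
    have h17 : ε₁ / G ≤ ε / (2 * G) := by
      rw [div_le_div_iff₀ hGpos (by positivity)]
      nlinarith
    rw [tail_real]
    split_ifs
    · positivity
    · exact h16.trans h17

/-- infinitely many `s` with `rep A s ≥ 2 K` -/
theorem freq {Ω : Type u} [MeasurableSpace Ω] {μ : Measure Ω} [IsProbabilityMeasure μ]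
    {E : ℕ → Set Ω} {K : ℕ} (hK : 1 ≤ K) (hE : KW μ E (4 * K))
    (hr : Rich fun n => μ.real (E n)) :
    ∀ᵐ ω ∂μ, ∃ᶠ s in atTop, 2 * K ≤ rep (rset E ω) s := by
  have h1 : ∀ m : ℕ, ∀ᵐ ω ∂μ, ∃ s, 2 * K ≤ rep (rset (tail E m) ω) s := by
    intro m
    have h2 := rich_null hK (tail_KW (k := 2 * (2 * K)) (by
      have : 2 * (2 * K) = 4 * K := by ring
      rw [this]
      exact hE) m) (tail_rich hr m)
    rw [ae_iff]
    convert h2 using 2
    ext ω
    simp only [Set.mem_ofPred_eq, not_exists, not_le]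
  rw [← ae_all_iff] at h1
  filter_upwards [h1] with ω hω
  rw [frequently_atTop]
  intro m
  obtain ⟨s, hs⟩ := hω m
  refine ⟨s, ?_, hs.trans (rep_mono ?_ s)⟩
  · by_contra hlt
    push Not at hlt
    have h3 : rep (rset (tail E m) ω) s = 0 := by
      unfold rep
      rw [Set.ncard_eq_zero (rep_finite _ _), Set.eq_empty_iff_forall_notMem]
      rintro ⟨a, b⟩ ⟨h4, h5, h6⟩
      have h7 : a < m := by
        simp only at h6
        omega
      have h8 : ω ∈ tail E m a := h4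
      unfold tail at h8
      rw [if_pos h7] at h8
      exact h8
    omega
  · intro n hn
    have h8 : ω ∈ tail E m n := hn
    unfold tail at h8
    split_ifs at h8 with h
    · exact h8.elim
    · exact h8

/-- polynomially small probabilities and exponent `1 / 2` -/
theorem rich_of_exponent {p : ℕ → ℝ} {η : ℝ} (hη : 0 < η)
    (hp : ∀ᶠ n : ℕ in atTop, p n ≤ (n : ℝ) ^ (-η))
    (hsum : ∀ ε : ℝ, 0 < ε → ∃ᶠ N : ℕ in atTop, (N : ℝ) ^ (1 / 2 - ε) ≤ ∑ n ∈ Icc 1 N, p n) :
    Rich p := by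
  intro ε hε
  set ε' : ℝ := min ε (η / 8) with hε'
  have h0 : 0 < ε' := by positivity
  have h1 : ε' ≤ ε := min_le_left _ _
  have h2 : ε' ≤ η / 8 := min_le_right _ _
  obtain ⟨n₀, hn₀⟩ := eventually_atTop.1 hp
  have hl : Tendsto (fun N : ℕ => (N : ℝ) ^ (η / 8)) atTop atTop :=
    (tendsto_rpow_atTop (by positivity)).comp tendsto_natCast_atTop_atTop
  refine ((hsum ε' h0).and_eventually ((hl.eventually_ge_atTop (1 / ε)).and
    (eventually_ge_atTop ((n₀ + 1) ^ 4)))).mono ?_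
  rintro N ⟨h3, h4, h5⟩
  have hN1 : 1 ≤ N := le_trans (Nat.one_le_pow _ _ (by omega)) h5
  have hN1' : (1 : ℝ) ≤ N := by exact_mod_cast hN1
  have hNpos : (0 : ℝ) < N := by linarith
  refine ⟨(N : ℝ) ^ ε', Real.one_le_rpow hN1' h0.le, Real.rpow_le_rpow_of_exponent_le hN1' h1,
    ?_, ?_⟩
  · refine le_trans (le_of_eq ?_) h3
    rw [Real.sqrt_eq_rpow, ← Real.rpow_sub hNpos]
  · intro n hn1 hn2
    have h6 : n₀ ≤ n := by
      by_contra hlt
      push Not at hlt
      have h7 : n ^ 4 < (n₀ + 1) ^ 4 := Nat.pow_lt_pow_left (by omega) (by norm_num)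
      omega
    refine (hn₀ n h6).trans ?_
    have hn0 : 0 < n := by
      rcases Nat.eq_zero_or_pos n with h | h
      · subst h
        simp at hn2
        omega
      · exact h
    have hnpos : (0 : ℝ) < n := by exact_mod_cast hn0
    have h8 : (N : ℝ) ^ (1 / 4 : ℝ) ≤ n := by
      have h9 : (N : ℝ) ≤ (n : ℝ) ^ (4 : ℕ) := by exact_mod_cast hn2
      calc (N : ℝ) ^ (1 / 4 : ℝ) ≤ ((n : ℝ) ^ (4 : ℕ)) ^ (1 / 4 : ℝ) :=
            Real.rpow_le_rpow hNpos.le h9 (by norm_num)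
        _ = n := by
            rw [← Real.rpow_natCast, ← Real.rpow_mul hnpos.le]
            norm_num
    have h10 : (n : ℝ) ^ (-η) ≤ (N : ℝ) ^ (-(η / 4)) := by
      have h11 : ((N : ℝ) ^ (1 / 4 : ℝ)) ^ η ≤ (n : ℝ) ^ η :=
        Real.rpow_le_rpow (by positivity) h8 hη.le
      rw [← Real.rpow_mul hNpos.le] at h11
      rw [Real.rpow_neg hnpos.le, Real.rpow_neg hNpos.le]
      have h12 : (1 / 4 : ℝ) * η = η / 4 := by ring
      rw [h12] at h11
      exact inv_anti₀ (by positivity) h11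
    refine h10.trans ?_
    rw [le_div_iff₀ (by positivity), ← Real.rpow_add hNpos]
    have h13 : (N : ℝ) ^ (-(η / 4) + ε') ≤ (N : ℝ) ^ (-(η / 8)) :=
      Real.rpow_le_rpow_of_exponent_le hN1' (by linarith)
    refine h13.trans ?_
    rw [Real.rpow_neg hNpos.le]
    rw [inv_le_comm₀ (by positivity) hε]
    rw [← one_div]
    exact h4

theorem integral_count {Ω : Type u} [MeasurableSpace Ω] {μ : Measure Ω} [IsProbabilityMeasure μ]
    {E : ℕ → Set Ω} (hm : ∀ n, MeasurableSet (E n)) (N : ℕ) (t : ℝ) :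
    t * μ.real {ω | t ≤ count (rset E ω) N} ≤ ∑ n ∈ Icc 1 N, μ.real (E n) := by
  classical
  have h1 : ∀ ω, count (rset E ω) N = ∑ n ∈ Icc 1 N, (E n).indicator (fun _ => (1 : ℝ)) ω := by
    intro ω
    rw [count_eq]
    unfold seg
    rw [card_filter]
    push_cast
    refine sum_congr rfl fun n _ => ?_
    by_cases h : n ∈ rset E ω
    · rw [if_pos h, Set.indicator_of_mem (show ω ∈ E n from h)]
    · rw [if_neg h, Set.indicator_of_notMem (show ω ∉ E n from h)]
  have hint : ∀ n ∈ Icc 1 N, Integrable ((E n).indicator (fun _ => (1 : ℝ))) μ :=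
    fun n _ => (integrable_const _).indicator (hm n)
  have h2 : ∫ ω, count (rset E ω) N ∂μ = ∑ n ∈ Icc 1 N, μ.real (E n) := by
    simp_rw [h1]
    rw [integral_finsetSum _ hint]
    refine sum_congr rfl fun n _ => ?_
    rw [integral_indicator_const _ (hm n), smul_eq_mul, mul_one]
  have h3 : Integrable (fun ω => count (rset E ω) N) μ := by
    simp_rw [h1]
    exact integrable_finsetSum _ hint
  rw [← h2]
  exact mul_meas_ge_le_integral_of_nonneg (Eventually.of_forall fun ω => by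
    show (0 : ℝ) ≤ count (rset E ω) N
    unfold count
    positivity) h3 t

theorem not_counterexample {Ω : Type u} [MeasurableSpace Ω] {μ : Measure Ω}
    [IsProbabilityMeasure μ] {E : ℕ → Set Ω} {K : ℕ} (hK : 1 ≤ K) (hE : KW μ E (4 * K))
    (h0 : Tendsto (fun n => μ.real (E n)) atTop (nhds 0)) :
    ∀ᵐ ω ∂μ, (∃ c : ℝ, 0 < c ∧ ∀ᶠ N : ℕ in atTop, c * Real.sqrt N ≤ count (rset E ω) N) →
      ∃ᶠ s in atTop, 2 * K ≤ rep (rset E ω) s := by
  by_cases hz : μ {ω | ∃ c : ℝ, 0 < c ∧ ∀ᶠ N : ℕ in atTop,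
      c * Real.sqrt N ≤ count (rset E ω) N} = 0
  · have h1 : ∀ᵐ ω ∂μ, ¬ (∃ c : ℝ, 0 < c ∧ ∀ᶠ N : ℕ in atTop,
        c * Real.sqrt N ≤ count (rset E ω) N) := by
      rw [ae_iff]
      simpa only [not_not] using hz
    filter_upwards [h1] with ω hω h
    exact absurd h hω
  · have h1 : ∃ j N₀ : ℕ, μ {ω | ∀ N : ℕ, N₀ ≤ N →
        1 / ((j : ℝ) + 1) * Real.sqrt N ≤ count (rset E ω) N} ≠ 0 := by
      by_contra hcon
      push Not at hcon
      refine hz (measure_mono_null ?_ (measure_iUnion_null_iff.2 fun j =>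
        measure_iUnion_null_iff.2 fun N₀ => hcon j N₀))
      rintro ω ⟨c, hc, hev⟩
      obtain ⟨j, hj⟩ := exists_nat_one_div_lt hc
      obtain ⟨N₀, hN₀⟩ := eventually_atTop.1 hev
      rw [Set.mem_iUnion]
      refine ⟨j, ?_⟩
      rw [Set.mem_iUnion]
      refine ⟨N₀, fun N hN => ?_⟩
      exact (mul_le_mul_of_nonneg_right hj.le (Real.sqrt_nonneg _)).trans (hN₀ N hN)
    obtain ⟨j, N₀, hj⟩ := h1
    set F : Set Ω := {ω | ∀ N : ℕ, N₀ ≤ N →
        1 / ((j : ℝ) + 1) * Real.sqrt N ≤ count (rset E ω) N} with hF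
    have hFpos : 0 < μ.real F := by
      rw [measureReal_def, ENNReal.toReal_pos_iff]
      exact ⟨pos_iff_ne_zero.2 hj, measure_lt_top _ _⟩
    have hsum : ∀ N : ℕ, max N₀ 1 ≤ N →
        μ.real F * (1 / ((j : ℝ) + 1)) * Real.sqrt N ≤ ∑ n ∈ Icc 1 N, μ.real (E n) := by
      intro N hN
      have hN1 : 1 ≤ N := (le_max_right _ _).trans hN
      have hN0 : N₀ ≤ N := (le_max_left _ _).trans hN
      have hs : 0 < Real.sqrt N := Real.sqrt_pos.2 (by exact_mod_cast hN1)
      have ht : 0 < 1 / ((j : ℝ) + 1) * Real.sqrt N := by positivity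
      refine le_trans ?_ (integral_count (E := E) hE.1 N (1 / ((j : ℝ) + 1) * Real.sqrt N))
      have h2 : μ.real F ≤ μ.real {ω | 1 / ((j : ℝ) + 1) * Real.sqrt N ≤
          count (rset E ω) N} := measureReal_mono fun ω hω => hω N hN0
      nlinarith
    have h3 := freq hK hE (rich_of_const (c := μ.real F * (1 / ((j : ℝ) + 1))) h0
      (by positivity) (Eventually.frequently (eventually_atTop.2 ⟨max N₀ 1, hsum⟩)))
    filter_upwards [h3] with ω hω _
    exact hω

/-- **Random sets with boundedly independent membership.** -/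
theorem result :
    -- 1. probabilities which tend to zero, and size at least `c √N` for infinitely many `N`
    (∀ (Ω : Type u) [MeasurableSpace Ω] (μ : Measure Ω) [IsProbabilityMeasure μ]
      (E : ℕ → Set Ω) (K : ℕ), 1 ≤ K → KW μ E (4 * K) →
      Tendsto (fun n => μ.real (E n)) atTop (nhds 0) → ∀ c : ℝ, 0 < c →
      (∃ᶠ N : ℕ in atTop, c * Real.sqrt N ≤ ∑ n ∈ Icc 1 N, μ.real (E n)) →
      ∀ᵐ ω ∂μ, ∃ᶠ s in atTop, 2 * K ≤ rep (rset E ω) s) ∧
    -- 2. polynomially small probabilities, and size `N ^ (1/2 - o(1))` for infinitely many `N`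
    (∀ (Ω : Type u) [MeasurableSpace Ω] (μ : Measure Ω) [IsProbabilityMeasure μ]
      (E : ℕ → Set Ω) (K : ℕ), 1 ≤ K → KW μ E (4 * K) → ∀ η : ℝ, 0 < η →
      (∀ᶠ n : ℕ in atTop, μ.real (E n) ≤ (n : ℝ) ^ (-η)) →
      (∀ ε : ℝ, 0 < ε → ∃ᶠ N : ℕ in atTop,
        (N : ℝ) ^ (1 / 2 - ε) ≤ ∑ n ∈ Icc 1 N, μ.real (E n)) →
      ∀ᵐ ω ∂μ, ∃ᶠ s in atTop, 2 * K ≤ rep (rset E ω) s) ∧
    -- 3. the general form
    (∀ (Ω : Type u) [MeasurableSpace Ω] (μ : Measure Ω) [IsProbabilityMeasure μ]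
      (E : ℕ → Set Ω) (K : ℕ), 1 ≤ K → KW μ E (4 * K) →
      (∀ ε : ℝ, 0 < ε → ∃ᶠ N : ℕ in atTop, ∃ G : ℝ, 1 ≤ G ∧ G ≤ (N : ℝ) ^ ε ∧
        Real.sqrt N / G ≤ ∑ n ∈ Icc 1 N, μ.real (E n) ∧
        ∀ n : ℕ, n ≤ N → N ≤ n ^ 4 → μ.real (E n) ≤ ε / G) →
      ∀ᵐ ω ∂μ, ∃ᶠ s in atTop, 2 * K ≤ rep (rset E ω) s) ∧
    -- 4. `k`-wise independence for every `k`
    (∀ (Ω : Type u) [MeasurableSpace Ω] (μ : Measure Ω) [IsProbabilityMeasure μ]
      (E : ℕ → Set Ω), (∀ k, KW μ E k) →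
      (∀ ε : ℝ, 0 < ε → ∃ᶠ N : ℕ in atTop, ∃ G : ℝ, 1 ≤ G ∧ G ≤ (N : ℝ) ^ ε ∧
        Real.sqrt N / G ≤ ∑ n ∈ Icc 1 N, μ.real (E n) ∧
        ∀ n : ℕ, n ≤ N → N ≤ n ^ 4 → μ.real (E n) ≤ ε / G) →
      ∀ᵐ ω ∂μ, ∀ R : ℕ, ∃ᶠ s in atTop, R ≤ rep (rset E ω) s) ∧
    -- 5. the hypotheses of the two questions
    (∀ (Ω : Type u) [MeasurableSpace Ω] (μ : Measure Ω) [IsProbabilityMeasure μ]
      (E : ℕ → Set Ω) (K : ℕ), 1 ≤ K → KW μ E (4 * K) →
      Tendsto (fun n => μ.real (E n)) atTop (nhds 0) →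
      ∀ᵐ ω ∂μ, (((rset E ω).Infinite ∧
          ∃ C : ℕ, ∀ n ≥ 1, Nat.nth (fun a => a ∈ rset E ω) (n - 1) ≤ C * n ^ 2) ∨
          ∀ᶠ n in atTop, 1 ≤ rep (rset E ω) n) →
        ∃ᶠ s in atTop, 2 * K ≤ rep (rset E ω) s) := by
  have h3 : ∀ (Ω : Type u) [MeasurableSpace Ω] (μ : Measure Ω) [IsProbabilityMeasure μ]
      (E : ℕ → Set Ω) (K : ℕ), 1 ≤ K → KW μ E (4 * K) → Rich (fun n => μ.real (E n)) →
      ∀ᵐ ω ∂μ, ∃ᶠ s in atTop, 2 * K ≤ rep (rset E ω) s :=
    fun Ω _ μ _ E K hK hE hr => freq hK hE hr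
  refine ⟨fun Ω _ μ _ E K hK hE h0 c hc hsum => h3 Ω μ E K hK hE (rich_of_const h0 hc hsum),
    fun Ω _ μ _ E K hK hE η hη hp hsum => h3 Ω μ E K hK hE (rich_of_exponent hη hp hsum),
    fun Ω _ μ _ E K hK hE hr => h3 Ω μ E K hK hE hr, ?_, ?_⟩
  · intro Ω _ μ _ E hE hr
    rw [ae_all_iff]
    intro R
    filter_upwards [h3 Ω μ E (R + 1) (by omega) (hE _) hr] with ω hω
    exact hω.mono fun s hs => by omega
  · intro Ω _ μ _ E K hK hE h0
    filter_upwards [not_counterexample hK hE h0] with ω hω h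
    rcases h with ⟨hinf, C, hC⟩ | hbas
    · exact hω (q2_thick _ hinf C hC)
    · exact hω (basis_thick _ hbas)

end Pool.Agent.Results.MP_12a1af_nt.BoundedIndependence
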