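import Pool.Agent.Q189.EA.Fin

set_option autoImplicit false

/-!
# MP_12a1af_nt, Q2: the energy of a set with bounded representation function is spread over all arcs

Let `F` be the generating function of a set `A` with `r_A ≤ K`.  Over the whole circle
`(1 - ρ) ∫ |F (ρ e^{iθ})|^4 dθ` is bounded above, by Parseval.  Here: if `A` has `a_n ≤ C n²`, then
every fixed arc carries at least `c > 0`, where `c` depends only on `K`, `C` and the arc.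
-/

open Filter

namespace Pool.Agent.Results.MP_12a1af_nt.EnergyOnArcs

/-- `r_A(n)`: the number of ordered pairs `(a, b) ∈ A × A` with `a + b = n`. -/
noncomputable def rep (A : Set ℕ) (n : ℕ) : ℕ :=
  Set.ncard {p : ℕ × ℕ | p.1 ∈ A ∧ p.2 ∈ A ∧ p.1 + p.2 = n}

/-- `elt A n` is the `n`-th element `a_n` (`n ≥ 1`) of the infinite set `A` listed increasingly. -/
noncomputable def elt (A : Set ℕ) (n : ℕ) : ℕ := Nat.nth (· ∈ A) (n - 1)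

/-- The generating function `∑_{a ∈ A} z^a`. -/
noncomputable def F (A : Set ℕ) (z : ℂ) : ℂ := ∑' n : ℕ, Set.indicator A (fun n => z ^ n) n

/-- The energy `∫_α^β |F_A(ρ e^{iθ})|^4 dθ` of the arc from `e^{iα}` to `e^{iβ}` at radius `ρ`. -/
noncomputable def energy (A : Set ℕ) (α β ρ : ℝ) : ℝ :=
  ∫ θ in α..β, ‖F A (ρ * Complex.exp (θ * Complex.I))‖ ^ 4

theorem energy_eq (A : Set ℕ) (α β ρ : ℝ) :
    ∫ θ in α..β, ‖Pool.Agent.H303R3.ET.GF A (circleMap 0 ρ θ)‖ ^ (2 * 2) = energy A α β ρ := by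
  unfold energy
  refine intervalIntegral.integral_congr fun θ _ => ?_
  show ‖Pool.Agent.H303R3.ET.GF A (circleMap 0 ρ θ)‖ ^ (2 * 2) =
    ‖F A (ρ * Complex.exp (θ * Complex.I))‖ ^ 4
  rw [circleMap_zero]
  rfl

theorem finite (K : ℕ) (κ α β : ℝ) (hκ : 0 < κ) (hαβ : α < β) : ∃ c : ℝ, 0 < c ∧ ∃ N₀ : ℕ,
    ∀ A : Set ℕ, (∀ n, rep A n ≤ K) → ∀ N : ℕ, N₀ ≤ N →
      κ * Real.sqrt N ≤ ((A ∩ Set.Iio N).ncard : ℝ) → c * N ≤ energy A α β (1 - 1 / N) := by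
  obtain ⟨c, hc, ρ₀, hρ0, hρ1, h⟩ := Pool.Agent.Q189.EA.arcs_c (k := 2) le_rfl K
    (c0 := κ ^ 2 / 256) (by positivity) hαβ
  obtain ⟨M, hM⟩ := exists_nat_gt (1 / (1 - ρ₀))
  refine ⟨c, hc, max M 2, fun A hA N hN hcount => ?_⟩
  have hN2 : 2 ≤ N := (le_max_right _ _).trans hN
  have hNM : M ≤ N := (le_max_left _ _).trans hN
  have hN0 : (0 : ℝ) < N := by exact_mod_cast (by omega : 0 < N)
  have h1 : ρ₀ < 1 - 1 / (N : ℝ) := by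
    have h2 : (M : ℝ) ≤ N := by exact_mod_cast hNM
    have h3 : 1 / (1 - ρ₀) < N := lt_of_lt_of_le hM h2
    have h4 : 0 < 1 - ρ₀ := by linarith
    have h5 : 1 / (N : ℝ) < 1 - ρ₀ := by
      rw [div_lt_iff₀ hN0]
      rw [div_lt_iff₀ h4] at h3
      linarith
    linarith
  have h2 : 1 - 1 / (N : ℝ) < 1 := by
    have : 0 < 1 / (N : ℝ) := by positivity
    linarith
  have h3 := h A (fun n => (Pool.Agent.Q189.EA.Rn_le_rep A n).trans (hA n)) _ h1 h2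
    (Pool.Agent.Q189.EA.fr_ge_count hκ hN2 hcount)
  rw [energy_eq] at h3
  have h4 : (1 : ℝ) - (1 - 1 / (N : ℝ)) = 1 / N := by ring
  rw [h4, one_div, inv_mul_eq_div, le_div_iff₀ hN0] at h3
  have h5 : (1 : ℝ) / N = (N : ℝ)⁻¹ := one_div _
  rw [h5]
  exact h3

theorem quadratic (K : ℕ) (C α β : ℝ) (hαβ : α < β) : ∃ c : ℝ, 0 < c ∧ ∃ ρ₀ : ℝ, ρ₀ < 1 ∧
    ∀ A : Set ℕ, A.Infinite → (∀ n : ℕ, 1 ≤ n → (elt A n : ℝ) ≤ C * (n : ℝ) ^ 2) →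
      (∀ n, rep A n ≤ K) → ∀ ρ : ℝ, ρ₀ < ρ → ρ < 1 → c ≤ (1 - ρ) * energy A α β ρ := by
  obtain ⟨C', hC'⟩ : ∃ C' : ℝ, C' = max C 1 := ⟨_, rfl⟩
  have hC1 : 1 ≤ C' := by rw [hC']; exact le_max_right _ _
  have hCC : C ≤ C' := by rw [hC']; exact le_max_left _ _
  obtain ⟨c, hc, ρ₀, hρ0, hρ1, h⟩ := Pool.Agent.Q189.EA.arcs_c (k := 2) le_rfl K
    (c0 := 1 / (32 * C')) (by positivity) hαβ
  refine ⟨c, hc, max ρ₀ (1 - 1 / (16 * C')), max_lt hρ1 (by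
    have : 0 < 1 / (16 * C') := by positivity
    linarith), fun A hA hq hK ρ hρ hρ' => ?_⟩
  have h1 : ρ₀ < ρ := (le_max_left _ _).trans_lt hρ
  have h2 : 1 - 1 / (16 * C') < ρ := (le_max_right _ _).trans_lt hρ
  have h0 : 0 < ρ := lt_of_le_of_lt hρ0 h1
  have hq' : ∀ n, (Nat.nth (· ∈ A) n : ℝ) ≤ C' * ((n : ℝ) + 1) ^ 2 := by
    intro n
    have h1 := hq (n + 1) (by omega)
    unfold elt at h1
    rw [Nat.add_sub_cancel] at h1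
    push_cast at h1
    exact h1.trans (by gcongr)
  have hT : 8 * C' ≤ (1 - ρ ^ 2)⁻¹ := by
    have h3 : 0 < 1 - ρ ^ 2 := by nlinarith
    rw [le_inv_comm₀ (by positivity) h3]
    have h4 : 1 - ρ < 1 / (16 * C') := by linarith
    have h5 : 1 - ρ ^ 2 ≤ 2 * (1 - ρ) := by nlinarith
    have h6 : 2 * (1 / (16 * C')) = (8 * C')⁻¹ := by
      field_simp
      norm_num
    linarith
  have h3 := h A (fun n => (Pool.Agent.Q189.EA.Rn_le_rep A n).trans (hK n)) ρ h1 hρ'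
    (Pool.Agent.H303R3.ET.fr_sq_ge hA hC1 hq' (by positivity) (by nlinarith) hT)
  rw [energy_eq] at h3
  exact h3

/-- (1) For all `K`, `κ > 0` and `α < β` there are `c > 0` and `N₀` such that for every `A ⊆ ℕ` with
`r_A ≤ K` and every `N ≥ N₀` with `|A ∩ [0, N)| ≥ κ √N` the energy of the arc at radius `1 - 1/N` is
at least `c N`.

(2) For all `K`, `C` and `α < β` there are `c > 0` and `ρ₀ < 1` such that for every infinite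
`A ⊆ ℕ` with `a_n ≤ C n²` for all `n ≥ 1` and `r_A ≤ K`, and for all `ρ₀ < ρ < 1`, one has
`(1 - ρ) ∫_α^β |F_A(ρ e^{iθ})|^4 dθ ≥ c`.

(3) Hence `r_A` is unbounded for every infinite `A ⊆ ℕ` with `a_n ≤ C n²` (`n ≥ 1`) for some `C`
such that for some `α < β` the lower limit of `(1 - ρ) ∫_α^β |F_A(ρ e^{iθ})|^4 dθ` as `ρ → 1` is
zero; and (4) for every `A ⊆ ℕ` such that for some `κ > 0` and `α < β`, for each `ε > 0`, there are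
arbitrarily large `N` with `|A ∩ [0, N)| ≥ κ √N` whose energy at radius `1 - 1/N` is `< ε N`. -/
theorem result :
    (∀ (K : ℕ) (κ α β : ℝ), 0 < κ → α < β → ∃ c : ℝ, 0 < c ∧ ∃ N₀ : ℕ,
      ∀ A : Set ℕ, (∀ n, rep A n ≤ K) → ∀ N : ℕ, N₀ ≤ N →
        κ * Real.sqrt N ≤ ((A ∩ Set.Iio N).ncard : ℝ) → c * N ≤ energy A α β (1 - 1 / N)) ∧
    (∀ (K : ℕ) (C α β : ℝ), α < β → ∃ c : ℝ, 0 < c ∧ ∃ ρ₀ : ℝ, ρ₀ < 1 ∧
      ∀ A : Set ℕ, A.Infinite → (∀ n : ℕ, 1 ≤ n → (elt A n : ℝ) ≤ C * (n : ℝ) ^ 2) →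
        (∀ n, rep A n ≤ K) → ∀ ρ : ℝ, ρ₀ < ρ → ρ < 1 → c ≤ (1 - ρ) * energy A α β ρ) ∧
    (∀ A : Set ℕ, A.Infinite → (∃ C : ℝ, ∀ n : ℕ, 1 ≤ n → (elt A n : ℝ) ≤ C * (n : ℝ) ^ 2) →
      (∃ α β : ℝ, α < β ∧ ∀ ε : ℝ, 0 < ε → ∀ ρ₀ : ℝ, ρ₀ < 1 → ∃ ρ : ℝ, ρ₀ < ρ ∧ ρ < 1 ∧
        (1 - ρ) * energy A α β ρ < ε) →
      ∀ K : ℕ, ∃ n : ℕ, K < rep A n) ∧
    (∀ (A : Set ℕ) (κ α β : ℝ), 0 < κ → α < β →
      (∀ ε : ℝ, 0 < ε → ∃ᶠ N : ℕ in atTop, κ * Real.sqrt N ≤ ((A ∩ Set.Iio N).ncard : ℝ) ∧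
        energy A α β (1 - 1 / N) < ε * N) →
      ∀ K : ℕ, ∃ n : ℕ, K < rep A n) := by
  refine ⟨finite, quadratic, fun A hA hC hex K => ?_, fun A κ α β hκ hαβ hex K => ?_⟩
  · by_contra hcon
    push Not at hcon
    obtain ⟨C, hC⟩ := hC
    obtain ⟨α, β, hαβ, hex⟩ := hex
    obtain ⟨c, hc, ρ₀, hρ₀, h1⟩ := quadratic K C α β hαβ
    obtain ⟨ρ, h2, h3, h4⟩ := hex c hc ρ₀ hρ₀
    have := h1 A hA hC hcon ρ h2 h3
    linarith
  · by_contra hcon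
    push Not at hcon
    obtain ⟨c, hc, N₀, h1⟩ := finite K κ α β hκ hαβ
    obtain ⟨N, ⟨h2, h3⟩, h4⟩ := ((hex c hc).and_eventually (eventually_ge_atTop N₀)).exists
    have := h1 A hcon N h4 h2
    linarith

end Pool.Agent.Results.MP_12a1af_nt.EnergyOnArcs
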