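import Mathlib
import Pool.Agent.Y940.ES.Main

/-!
# The Erdős–Turán problem, stronger form (Q2): popular differences and sums inside the classes of a colouring

Let `A` be infinite with `a_n ≤ C n²` and `r_A ≤ K` (a counterexample to Q2).  For every colouring of `A` with `k` colours,
every `l` and every `N ≥ exp (B k² l)` at least `N exp (-B k² l)` of the `d ≤ N` have at least `l` representations as a
difference of two elements of `A ∩ [0, N]` of the same colour, and at least `N exp (-B k²)` of the `n ≤ N` are sums in at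
least four (ordered) ways of two elements of one colour; `B` depends only on `C` and `K`.  So Q2 holds for all subsets of
finite unions of sets for which such popular differences (or sums) have lower density `0`.
-/

set_option autoImplicit false

open Finset Filter

namespace Pool.Agent.Results.MP_12a1af_nt.PopularInColourings

/-- `r_A(n)`: the number of ordered pairs of elements of `A` with sum `n` -/
noncomputable def rep (A : Set ℕ) (n : ℕ) : ℕ :=
  {p : ℕ × ℕ | p.1 ∈ A ∧ p.2 ∈ A ∧ p.1 + p.2 = n}.ncard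

/-- the number of `b ∈ A` with `b + d ∈ A` and `b + d ≤ N` -/
noncomputable def dif (A : Set ℕ) (N d : ℕ) : ℕ :=
  {b : ℕ | b ∈ A ∧ b + d ∈ A ∧ b + d ≤ N}.ncard

/-- the `n`-th element `a_n` of `A`, `n ≥ 1` -/
noncomputable def elt (A : Set ℕ) (n : ℕ) : ℕ := Nat.nth (fun a => a ∈ A) (n - 1)

/-- the hypothesis of Q2: `A` is infinite and `a_n ≤ C n²` for all `n ≥ 1` -/
def Quad (C : ℕ) (A : Set ℕ) : Prop := A.Infinite ∧ ∀ n ≥ 1, elt A n ≤ C * n ^ 2

theorem rep_eq : @Pool.Agent.Y940.ES.rep = @rep := rfl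

theorem dif_eq : @Pool.Agent.Y940.ES.dif = @dif := rfl

open Classical in
/-- **Popular differences and sums inside colour classes.**
(1) There is `B = B(C, K)` such that for every `A` with `a_n ≤ C n²` and `r_A ≤ K`, all `k`, `l ≥ 1`, all `χ : ℕ → Fin k`
and all `N ≥ exp (B k² l)` there are at least `N exp (-B k² l)` numbers `1 ≤ d ≤ N` with at least `l` representations as a
difference of two elements `≤ N` of `A` of the same colour;
(2) and for `N ≥ exp (B k²)` at least `N exp (-B k²)` numbers `1 ≤ n ≤ N` with `r_{A_i}(n) ≥ 4` for some colour class `A_i`.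
(3) If `S_1, …, S_k` are sets such that for some `l` the set of the `d ≤ N` which have `l` representations as a difference
of two elements `≤ N` of one of the `S_i` has at most `ε N` elements for arbitrarily large `N`, for every `ε > 0`, then Q2
holds for all `A ⊆ S_1 ∪ … ∪ S_k`;
(4) the same for the `n ≤ N` with `r_{S_i}(n) ≥ 4` for some `i`. -/
theorem result :
    (∀ C K : ℕ, ∃ B : ℝ, 1 ≤ B ∧ ∀ A : Set ℕ, Quad C A → (∀ n, rep A n ≤ K) →
      ∀ k l : ℕ, 1 ≤ l → ∀ (χ : ℕ → Fin k) (N : ℕ), Real.exp (B * (k ^ 2 * l)) ≤ N →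
        N * Real.exp (-(B * (k ^ 2 * l))) ≤
          (((Icc 1 N).filter (fun d => ∃ i : Fin k, l ≤ dif {a | a ∈ A ∧ χ a = i} N d)).card : ℝ)) ∧
    (∀ C K : ℕ, ∃ B : ℝ, 1 ≤ B ∧ ∀ A : Set ℕ, Quad C A → (∀ n, rep A n ≤ K) →
      ∀ (k : ℕ) (χ : ℕ → Fin k) (N : ℕ), Real.exp (B * k ^ 2) ≤ N →
        N * Real.exp (-(B * k ^ 2)) ≤
          (((Icc 1 N).filter (fun n => ∃ i : Fin k, 4 ≤ rep {a | a ∈ A ∧ χ a = i} n)).card : ℝ)) ∧
    (∀ (k l : ℕ) (S : Fin k → Set ℕ),
      (∀ ε : ℝ, 0 < ε → ∃ᶠ N : ℕ in atTop,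
        (((Icc 1 N).filter (fun d => ∃ i, l ≤ dif (S i) N d)).card : ℝ) ≤ ε * N) →
      ∀ A : Set ℕ, A ⊆ ⋃ i, S i → (∃ C, Quad C A) → ∀ K : ℕ, ∃ n, K < rep A n) ∧
    (∀ (k : ℕ) (S : Fin k → Set ℕ),
      (∀ ε : ℝ, 0 < ε → ∃ᶠ N : ℕ in atTop,
        (((Icc 1 N).filter (fun n => ∃ i, 4 ≤ rep (S i) n)).card : ℝ) ≤ ε * N) →
      ∀ A : Set ℕ, A ⊆ ⋃ i, S i → (∃ C, Quad C A) → ∀ K : ℕ, ∃ n, K < rep A n) := by
  refine ⟨?_, ?_, ?_, ?_⟩
  · intro C K
    obtain ⟨B, hB1, hB⟩ := Pool.Agent.Y940.ES.popular C K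
    refine ⟨B, hB1, fun A hA hr k l hl χ N hN => ?_⟩
    have h := hB A hA.1 hA.2 hr k l hl χ N hN
    rw [Pool.Agent.Y940.ES.pop_eq, dif_eq] at h
    exact h
  · intro C K
    obtain ⟨B, hB1, hB⟩ := Pool.Agent.Y940.ES.popular_sums C K
    refine ⟨B, hB1, fun A hA hr k χ N hN => ?_⟩
    have h := hB A hA.1 hA.2 hr k χ N hN
    rw [rep_eq] at h
    exact h
  · rintro k l S hS A hAS ⟨C, hA, hC⟩ K
    exact Pool.Agent.Y940.ES.union_dif k l S (by rw [dif_eq]; exact hS) A hAS hA ⟨C, hC⟩ K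
  · rintro k S hS A hAS ⟨C, hA, hC⟩ K
    exact Pool.Agent.Y940.ES.union_rep k S (by rw [rep_eq]; exact hS) A hAS hA ⟨C, hC⟩ K

end Pool.Agent.Results.MP_12a1af_nt.PopularInColourings
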