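import Mathlib
import Pool.Agent.TH314.ET.Lim

/-!
# The Erdős–Turán problem: a product over primes of local factors

`r_A(n) = rep A n` is the number of ordered pairs of elements of `A` with sum `n`, and `res A p` is the number of residue
classes modulo `p` which contain an element of `A`.  For every set `A` and every finite set `P` of primes
`limsup r_A(n) ≥ m ∏_{p ∈ P} (1 + ((p - res A p) / res A p)² / (p - 1))`, where `m` is the upper Abel mean of `r_A`.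
In particular, if `r_A(n) ≥ h` for all large `n`, then `r_A(n) ≥ h ∏_{p ∈ P} (…)` for infinitely many `n`.
-/

set_option autoImplicit false

open Filter Topology

namespace Pool.Agent.Results.MP_12a1af_nt.ResidueProductFormula

/-- `r_A(n)`: the number of ordered pairs of elements of `A` with sum `n` -/
noncomputable def rep (A : Set ℕ) (n : ℕ) : ℕ :=
  {p : ℕ × ℕ | p.1 ∈ A ∧ p.2 ∈ A ∧ p.1 + p.2 = n}.ncard

/-- the number of residue classes modulo `q` which contain an element of `A` -/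
noncomputable def res (A : Set ℕ) (q : ℕ) : ℕ := ((fun a => a % q) '' A).ncard

/-- the product of the local factors `1 + ((p - ν) / ν)² / (p - 1)`, `ν = res A p` -/
noncomputable def factor (A : Set ℕ) (P : Finset ℕ) : ℝ :=
  ∏ p ∈ P, (1 + (((p : ℝ) - res A p) / res A p) ^ 2 / (p - 1))

theorem rep_eq : @rep = @Pool.Agent.TH314.ET.rep := rfl

theorem res_eq : @res = @Pool.Agent.TH314.ET.res := rfl

/-- the Abel mean of `r_A` if `r_A(n) ≥ h` for `n ≥ n₀` -/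
theorem mean_ge (A : Set ℕ) (h n₀ : ℕ) (hA : ∀ n, n₀ ≤ n → h ≤ rep A n) {ρ : ℝ} (h0 : 0 ≤ ρ) (h1 : ρ < 1) :
    h * ρ ^ n₀ ≤ (1 - ρ) * ∑' n : ℕ, (rep A n : ℝ) * ρ ^ n := by
  have hs := Pool.Agent.TH314.ET.rw_summable_real A h0 h1
  change Summable fun n : ℕ => (rep A n : ℝ) * ρ ^ n at hs
  have hs' : Summable fun j : ℕ => (rep A (j + n₀) : ℝ) * ρ ^ (j + n₀) :=
    (summable_nat_add_iff (f := fun n : ℕ => (rep A n : ℝ) * ρ ^ n) n₀).2 hs
  have h2 := hs.sum_add_tsum_nat_add n₀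
  have h3 : 0 ≤ ∑ i ∈ Finset.range n₀, (rep A i : ℝ) * ρ ^ i := Finset.sum_nonneg fun _ _ => by positivity
  have hg : HasSum (fun j : ℕ => (h : ℝ) * ρ ^ n₀ * ρ ^ j) ((h : ℝ) * ρ ^ n₀ * (1 - ρ)⁻¹) :=
    (hasSum_geometric_of_lt_one h0 h1).mul_left _
  have h4 : (h : ℝ) * ρ ^ n₀ * (1 - ρ)⁻¹ ≤ ∑' j : ℕ, (rep A (j + n₀) : ℝ) * ρ ^ (j + n₀) := by
    rw [← hg.tsum_eq]
    refine hg.summable.tsum_le_tsum (fun j => ?_) hs'
    have e1 : (h : ℝ) ≤ rep A (j + n₀) := by exact_mod_cast hA (j + n₀) (by omega)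
    calc (h : ℝ) * ρ ^ n₀ * ρ ^ j = h * ρ ^ (j + n₀) := by rw [pow_add]; ring
      _ ≤ _ := mul_le_mul_of_nonneg_right e1 (by positivity)
  have h5 : 0 < 1 - ρ := by linarith
  have h6 : (h : ℝ) * ρ ^ n₀ * (1 - ρ)⁻¹ ≤ ∑' n : ℕ, (rep A n : ℝ) * ρ ^ n := by
    rw [← h2]
    linarith
  calc (h : ℝ) * ρ ^ n₀ = (1 - ρ) * (h * ρ ^ n₀ * (1 - ρ)⁻¹) := by field_simp
    _ ≤ _ := mul_le_mul_of_nonneg_left h6 h5.le

/-- the product formula for arbitrary sets -/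
theorem formula (A : Set ℕ) (P : Finset ℕ) (hP : ∀ p ∈ P, p.Prime) (K m : ℝ)
    (hK : ∀ᶠ n : ℕ in atTop, (rep A n : ℝ) ≤ K)
    (hm : ∃ᶠ ρ in 𝓝[<] (1 : ℝ), m ≤ (1 - ρ) * ∑' n : ℕ, (rep A n : ℝ) * ρ ^ n) :
    m * factor A P ≤ K := by
  obtain ⟨n₁, hn₁⟩ := eventually_atTop.1 hK
  refine Pool.Agent.TH314.ET.product_formula A K n₁ hn₁ P hP m ?_
  have h1 : ∀ᶠ ρ : ℝ in 𝓝[<] 1, ρ ∈ Set.Ioo (0 : ℝ) 1 := Ioo_mem_nhdsLT (by norm_num)
  refine (hm.and_eventually h1).mono ?_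
  rintro ρ ⟨h2, h3⟩
  rw [Pool.Agent.TH314.ET.gf_sq A h3.1.le h3.2]
  exact h2

/-- **Product formula.**  (1) Let `P` be a finite set of primes, `r_A(n) ≤ K` for all large `n`, and let the Abel means
`(1 - ρ) ∑ r_A(n) ρ^n` be at least `m` for `ρ` arbitrarily close to `1`; then `m ∏_{p ∈ P} (1 + ((p-ν)/ν)²/(p-1)) ≤ K`,
`ν = res A p`.  (2) If `r_A(n) ≥ h` for all large `n`, then `r_A(n) ≥ h ∏_{p ∈ P} (1 + ((p-ν)/ν)²/(p-1))` for infinitely
many `n`. -/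
theorem result (A : Set ℕ) (P : Finset ℕ) (hP : ∀ p ∈ P, p.Prime) :
    (∀ K m : ℝ, (∀ᶠ n : ℕ in atTop, (rep A n : ℝ) ≤ K) →
      (∃ᶠ ρ in 𝓝[<] (1 : ℝ), m ≤ (1 - ρ) * ∑' n : ℕ, (rep A n : ℝ) * ρ ^ n) → m * factor A P ≤ K) ∧
    ∀ h : ℕ, (∀ᶠ n : ℕ in atTop, h ≤ rep A n) → ∃ᶠ n : ℕ in atTop, h * factor A P ≤ (rep A n : ℝ) := by
  refine ⟨fun K m hK hm => formula A P hP K m hK hm, fun h hh => ?_⟩
  obtain ⟨n₀, hn₀⟩ := eventually_atTop.1 hh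
  rcases Nat.eq_zero_or_pos h with rfl | hpos
  · refine (Eventually.of_forall fun n => ?_).frequently
    simp
  by_contra hcon
  rw [not_frequently] at hcon
  obtain ⟨n₁, hn₁⟩ := eventually_atTop.1 hcon
  set G := (h : ℝ) * factor A P with hG
  have hGpos : 0 < G := by
    have := hn₁ n₁ le_rfl
    push Not at this
    exact (Nat.cast_nonneg _).trans_lt this
  have hh0 : (0 : ℝ) < h := by exact_mod_cast hpos
  have hF : 0 < factor A P := pos_of_mul_pos_right hGpos hh0.le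
  set k : ℕ := ⌈G⌉₊ - 1 with hk
  have hc1 : 1 ≤ ⌈G⌉₊ := Nat.one_le_ceil_iff.2 hGpos
  have hkG : (k : ℝ) < G := by
    have h1 : k < ⌈G⌉₊ := by omega
    exact Nat.lt_ceil.1 h1
  have hK : ∀ᶠ n : ℕ in atTop, (rep A n : ℝ) ≤ k := by
    filter_upwards [eventually_ge_atTop n₁] with n hn
    have h1 := hn₁ n hn
    push Not at h1
    have h2 : rep A n < ⌈G⌉₊ := Nat.lt_ceil.2 h1
    exact_mod_cast (by omega : rep A n ≤ k)
  have hkG' : (k : ℝ) / factor A P < h := by rwa [div_lt_iff₀ hF]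
  obtain ⟨m, hm1, hm2⟩ := exists_between hkG'
  have h1 : ∀ᶠ ρ : ℝ in 𝓝[<] 1, m ≤ (1 - ρ) * ∑' n : ℕ, (rep A n : ℝ) * ρ ^ n := by
    have h2 : Tendsto (fun ρ : ℝ => (h : ℝ) * ρ ^ n₀) (𝓝[<] 1) (𝓝 ((h : ℝ) * 1 ^ n₀)) :=
      ((by fun_prop : Continuous fun ρ : ℝ => (h : ℝ) * ρ ^ n₀).tendsto 1).mono_left nhdsWithin_le_nhds
    rw [one_pow, mul_one] at h2
    have h3 : ∀ᶠ ρ : ℝ in 𝓝[<] 1, ρ ∈ Set.Ioo (0 : ℝ) 1 := Ioo_mem_nhdsLT (by norm_num)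
    filter_upwards [h2.eventually (eventually_gt_nhds hm2), h3] with ρ h4 h5
    exact h4.le.trans (mean_ge A h n₀ hn₀ h5.1.le h5.2)
  have h2 := formula A P hP k m hK h1.frequently
  have h3 : (k : ℝ) < m * factor A P := by rwa [div_lt_iff₀ hF] at hm1
  linarith

end Pool.Agent.Results.MP_12a1af_nt.ResidueProductFormula
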